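import Mathlib
import Pool.Agent.Lib.DTG.Use
import Pool.Agent.Lib.Pltc.Known
import Pool.Agent.Lib.LTL.Last

/-!
# Doubly transitive locally testable codes have polylogarithmic dimension

Let `G` be a doubly transitive permutation group of degree `n` in the list `DTG.Listed` (by the
classification of doubly transitive groups all but those of bounded degree are in the list). A
`G`-invariant code of length `n` and relative distance at least `3 ε` which is a
`(q, ε, s, 1)`-LTC has dimension at most `c (log n + 1) ^ (6 q)`.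
-/

set_option autoImplicit false
open Classical

namespace Pool.Agent.Results.MP_61e83e_lc.AllFamilies

/-- **Main theorem.** -/
theorem result (F : Type) [Field F] [Fintype F] (q : ℕ) (ε s : ℝ) (hε : 0 < ε) (hs : 0 < s) :
    ∃ c : ℝ, ∀ (n : ℕ) (G : Subgroup (Equiv.Perm (Fin n))) (C : Submodule F (Fin n → F)),
      (∀ i j i' j' : Fin n, i ≠ j → i' ≠ j' → ∃ π ∈ G, π i = i' ∧ π j = j') →
      DTG.Listed G →
      (∀ π ∈ G, ∀ w ∈ C, (fun k => w (π k)) ∈ C) →
      (∀ c ∈ C, c ≠ 0 →
          3 * ε * (n : ℝ) ≤ ((Finset.univ.filter (fun i => c i ≠ 0)).card : ℝ)) →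
      (∃ (m : ℕ) (Q : Fin m → List F → Fin n) (w : Fin m → ℝ),
        (∀ k, 0 ≤ w k) ∧ (∑ k, w k) = 1 ∧
        ∀ r : Fin n → F,
          (∀ c ∈ C, ε * (n : ℝ) ≤ ((Finset.univ.filter (fun i => r i ≠ c i)).card : ℝ)) →
          s ≤ ∑ k, (if (∃ L : ℕ → Fin n,
                (∀ t, t < q → L t = Q k ((List.range t).map (fun i => r (L i)))) ∧
                ¬ ∃ c ∈ C, ∀ t, t < q → c (L t) = r (L t))
              then w k else 0)) →
      (Module.finrank F C : ℝ) ≤ c * (Real.log n + 1) ^ (6 * q) := by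
  obtain ⟨c₁, h₁⟩ := Pltc.known_bound F q ε s hε hs
  obtain ⟨c₂, h₂⟩ := LTL.last_bound F q ε s hε hs
  have hF : (ringChar F).Prime := by
    rcases CharP.char_is_prime_or_zero F (ringChar F) with h | h
    · exact h
    · exact absurd h (CharP.char_ne_zero_of_finite F (ringChar F))
  refine ⟨|c₁| + |c₂|, fun n G C hG hL hGC hdist htest => ?_⟩
  have hlog : 0 ≤ Real.log n := Real.log_natCast_nonneg n
  have hG' : ∀ i j i' j' : Fin n, i ≠ j → i' ≠ j' → ∃ π : Equiv.Perm (Fin n),
      (∀ w ∈ C, (fun k => w (π k)) ∈ C) ∧ π i = i' ∧ π j = j' := by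
    intro i j i' j' hij hij'
    obtain ⟨π, hπ, h⟩ := hG i j i' j' hij hij'
    exact ⟨π, hGC π hπ, h⟩
  have hpow : (Real.log n + 1) ^ (4 * q) ≤ (Real.log n + 1) ^ (6 * q) :=
    pow_le_pow_right₀ (by linarith) (by omega)
  have hpow0 : 0 ≤ (Real.log n + 1) ^ (6 * q) := by positivity
  rcases DTG.covered_of_listed C hF G hGC hG hL with h | h
  · calc (Module.finrank F C : ℝ) ≤ c₁ * (Real.log n + 1) ^ (4 * q) :=
          h₁ n C hG' h hdist htest
      _ ≤ |c₁| * (Real.log n + 1) ^ (4 * q) :=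
          mul_le_mul_of_nonneg_right (le_abs_self c₁) (by positivity)
      _ ≤ |c₁| * (Real.log n + 1) ^ (6 * q) := mul_le_mul_of_nonneg_left hpow (abs_nonneg _)
      _ ≤ (|c₁| + |c₂|) * (Real.log n + 1) ^ (6 * q) :=
          mul_le_mul_of_nonneg_right (by linarith [abs_nonneg c₂]) hpow0
  · calc (Module.finrank F C : ℝ) ≤ c₂ * (Real.log n + 1) ^ (6 * q) :=
          h₂ n C hG' h hdist htest
      _ ≤ (|c₁| + |c₂|) * (Real.log n + 1) ^ (6 * q) :=
          mul_le_mul_of_nonneg_right (by linarith [abs_nonneg c₁, le_abs_self c₂]) hpow0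

end Pool.Agent.Results.MP_61e83e_lc.AllFamilies
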